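import Mathlib

/-!
# The share inequality

For `a, b ≥ 0` the capacity `1` of an edge can be split as `t + (1 - t)` such that
`a φ(a, m; b) ≤ t` and `b φ(b, m; a) ≤ 1 - t` for all `m ≥ 0`, where
`φ(p, q; r) = (3/4) (p² + q²) / (p³ + q³ + r³)`.
-/

namespace H64Tri

/-- the weight function -/
noncomputable def phi (p q r : ℝ) : ℝ := 3 / 4 * (p ^ 2 + q ^ 2) / (p ^ 3 + q ^ 3 + r ^ 3)

theorem phi_symm (p q r : ℝ) : phi p q r = phi q p r := by
  unfold phi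
  rw [add_comm (p ^ 2), add_comm (p ^ 3)]

theorem phi_nonneg {p q r : ℝ} (hp : 0 ≤ p) (hq : 0 ≤ q) (hr : 0 ≤ r) : 0 ≤ phi p q r := by
  unfold phi
  positivity

theorem phi_mul {p q r : ℝ} (hp : 0 ≤ p) (hq : 0 ≤ q) (hr : 0 ≤ r) :
    phi p q r * (p ^ 3 + q ^ 3 + r ^ 3) = 3 / 4 * (p ^ 2 + q ^ 2) := by
  unfold phi
  rcases eq_or_ne (p ^ 3 + q ^ 3 + r ^ 3) 0 with h | h
  · have h1 : 0 ≤ p ^ 3 := pow_nonneg hp 3
    have h2 : 0 ≤ q ^ 3 := pow_nonneg hq 3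
    have h3 : 0 ≤ r ^ 3 := pow_nonneg hr 3
    have h4 : p ^ 3 = 0 := by linarith
    have h5 : q ^ 3 = 0 := by linarith
    have h6 : p = 0 := pow_eq_zero_iff (by norm_num) |>.1 h4
    have h7 : q = 0 := pow_eq_zero_iff (by norm_num) |>.1 h5
    rw [h, h6, h7]
    norm_num
  · field_simp

/-- tangent inequality -/
theorem tangent {a u S m : ℝ} (ha : 0 ≤ a) (hu : 0 ≤ u) (hS : 0 ≤ S) (hm : 0 ≤ m)
    (h : a ^ 3 * (1 + 3 * u ^ 2) ≤ 2 * u ^ 3 * S) :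
    3 / 4 * a * (a ^ 2 + m ^ 2) ≤ u / 2 * (S + m ^ 3) := by
  rcases hu.eq_or_lt with h0 | h0
  · have h1 : a ^ 3 ≤ 0 := by
      rw [← h0] at h
      nlinarith
    have h2 : a = 0 := by
      have : a ^ 3 = 0 := le_antisymm h1 (pow_nonneg ha 3)
      exact pow_eq_zero_iff (by norm_num) |>.1 this
    rw [h2, ← h0]
    norm_num
  · have h1 : 0 ≤ (u * m - a) ^ 2 * (2 * (u * m) + a) := by positivity
    have h2 : 0 ≤ 4 * u ^ 2 * (u / 2 * (S + m ^ 3) - 3 / 4 * a * (a ^ 2 + m ^ 2)) := by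
      nlinarith
    have h3 : 0 < 4 * u ^ 2 := by positivity
    have h4 := (mul_nonneg_iff_of_pos_left h3).1 h2
    linarith

theorem share (a b : ℝ) (ha : 0 ≤ a) (hb : 0 ≤ b) : ∃ t : ℝ, 0 ≤ t ∧ t ≤ 1 ∧
    (∀ m, 0 ≤ m → a * phi a m b ≤ t) ∧ ∀ m, 0 ≤ m → b * phi b m a ≤ 1 - t := by
  have key : ∃ t : ℝ, 0 ≤ t ∧ t ≤ 1 ∧
      (∀ m, 0 ≤ m → 3 / 4 * a * (a ^ 2 + m ^ 2) ≤ t * (a ^ 3 + b ^ 3 + m ^ 3)) ∧
      ∀ m, 0 ≤ m → 3 / 4 * b * (b ^ 2 + m ^ 2) ≤ (1 - t) * (a ^ 3 + b ^ 3 + m ^ 3) := by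
    obtain ⟨S, hS⟩ : ∃ S, S = a ^ 3 + b ^ 3 := ⟨_, rfl⟩
    have ha3 : 0 ≤ a ^ 3 := pow_nonneg ha 3
    have hb3 : 0 ≤ b ^ 3 := pow_nonneg hb 3
    have hS0 : 0 ≤ S := by rw [hS]; linarith
    -- choose u
    have hc : ContinuousOn (fun u : ℝ => 2 * u ^ 3 * S - a ^ 3 * (1 + 3 * u ^ 2))
        (Set.Icc 0 2) := by fun_prop
    have hivt := intermediate_value_Icc (by norm_num : (0 : ℝ) ≤ 2) hc
    obtain ⟨u, ⟨hu0, hu2⟩, hu⟩ := hivt (⟨by simp [ha3], by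
      have : a ^ 3 ≤ S := by rw [hS]; linarith
      nlinarith⟩ : (0 : ℝ) ∈ Set.Icc _ _)
    have hu' : a ^ 3 * (1 + 3 * u ^ 2) = 2 * u ^ 3 * S := by
      simp only at hu
      linarith
    refine ⟨u / 2, by linarith, by linarith, fun m hm => ?_, fun m hm => ?_⟩
    · have := tangent ha hu0 hS0 hm hu'.le
      rw [← hS]
      exact this
    · have hv : b ^ 3 * (1 + 3 * (2 - u) ^ 2) ≤ 2 * (2 - u) ^ 3 * S := by
        have h1 : 0 < 1 + 3 * u ^ 2 := by positivity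
        have h2 : b ^ 3 = S - a ^ 3 := by rw [hS]; ring
        have h3 : 0 ≤ S * (3 * (1 - u * (2 - u)) ^ 2) := by positivity
        have h4 : (1 + 3 * u ^ 2) * (b ^ 3 * (1 + 3 * (2 - u) ^ 2))
            ≤ (1 + 3 * u ^ 2) * (2 * (2 - u) ^ 3 * S) := by
          have h5 : (1 + 3 * u ^ 2) * (b ^ 3 * (1 + 3 * (2 - u) ^ 2))
              = (1 + 3 * (2 - u) ^ 2) * (S * (1 + 3 * u ^ 2) - a ^ 3 * (1 + 3 * u ^ 2)) := by
            rw [h2]; ring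
          rw [h5, hu']
          nlinarith
        exact le_of_mul_le_mul_left h4 h1
      have := tangent hb (by linarith : (0 : ℝ) ≤ 2 - u) hS0 hm hv
      rw [← hS]
      have h6 : (1 - u / 2) = (2 - u) / 2 := by ring
      rw [h6]
      exact this
  obtain ⟨t, ht0, ht1, h1, h2⟩ := key
  refine ⟨t, ht0, ht1, fun m hm => ?_, fun m hm => ?_⟩
  · have h3 := h1 m hm
    unfold phi
    rcases (by positivity : 0 ≤ a ^ 3 + m ^ 3 + b ^ 3).eq_or_lt with h4 | h4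
    · rw [← h4, div_zero, mul_zero]
      exact ht0
    · rw [← mul_div_assoc, div_le_iff₀ h4]
      linarith
  · have h3 := h2 m hm
    unfold phi
    rcases (by positivity : 0 ≤ b ^ 3 + m ^ 3 + a ^ 3).eq_or_lt with h4 | h4
    · rw [← h4, div_zero, mul_zero]
      linarith
    · rw [← mul_div_assoc, div_le_iff₀ h4]
      linarith

/-- weighted form of the share inequality -/
theorem share_sum {ι : Type*} [Fintype ι] {p t : ℝ} (π f : ι → ℝ) (ht : 0 ≤ t)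
    (h0 : ∀ c, 0 ≤ π c) (hs : ∑ c, π c = p) (hf : ∀ c, p * f c ≤ t) :
    ∑ c, π c * f c ≤ t := by
  have hp : 0 ≤ p := by rw [← hs]; exact Finset.sum_nonneg fun c _ => h0 c
  rcases hp.eq_or_lt with h | h
  · have h1 : ∀ c ∈ Finset.univ, π c = 0 :=
      (Finset.sum_eq_zero_iff_of_nonneg fun c _ => h0 c).1 (by rw [hs, ← h])
    have h2 : ∑ c, π c * f c = 0 := Finset.sum_eq_zero fun c hc => by rw [h1 c hc, zero_mul]
    rw [h2]
    exact ht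
  · have h1 : p * ∑ c, π c * f c ≤ p * t := by
      calc p * ∑ c, π c * f c = ∑ c, π c * (p * f c) := by
            rw [Finset.mul_sum]
            exact Finset.sum_congr rfl fun c _ => by ring
        _ ≤ ∑ c, π c * t := Finset.sum_le_sum fun c _ => mul_le_mul_of_nonneg_left (hf c) (h0 c)
        _ = p * t := by rw [← Finset.sum_mul, hs]
    exact le_of_mul_le_mul_left h1 h

end H64Tri
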