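import Pool.Agent.H56.FP.WDefs
import Pool.Agent.H64.Tri.Share

/-!
# Fractional triangle decompositions of 3-partite graphs: the sharp constant `n / 4`

Let `w` be a fractional packing of triangles in the weighted tripartite graph `g` which minimises
`∑ P_v ^ 4`, `P_v` the uncovered degree of `v` (towards one of the other parts).  If `P ≠ 0` a small
step towards the packing `F` below (uncovered edge `x x'`, apex `c`, weight
`(3/4) (P_x² + P_x'²) / (P_x³ + P_x'³ + P_c³)`) decreases the functional.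
-/

open Finset

set_option linter.unusedSectionVars false

namespace H64Tri

open H56FP

variable {n : ℕ}

/-- the triangle weights, seen from part `i` -/
def Wr (w : Fin n → Fin n → Fin n → ℝ) (i : ZMod 3) (x y z : Fin n) : ℝ :=
  if i = 0 then w x y z else if i = 1 then w z x y else w y z x

theorem zmod3_cases (i : ZMod 3) : i = 0 ∨ i = 1 ∨ i = 2 := by revert i; decide

theorem Wr_zero (w : Fin n → Fin n → Fin n → ℝ) (x y z : Fin n) : Wr w 0 x y z = w x y z := by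
  unfold Wr
  rw [if_pos rfl]

theorem Wr_one (w : Fin n → Fin n → Fin n → ℝ) (x y z : Fin n) : Wr w 1 x y z = w z x y := by
  unfold Wr
  rw [if_neg (by decide), if_pos rfl]

theorem Wr_two (w : Fin n → Fin n → Fin n → ℝ) (x y z : Fin n) : Wr w 2 x y z = w y z x := by
  unfold Wr
  rw [if_neg (by decide), if_neg (by decide)]

theorem Wr_rot (w : Fin n → Fin n → Fin n → ℝ) (i : ZMod 3) (x y z : Fin n) :
    Wr w (i + 1) y z x = Wr w i x y z := by
  rcases zmod3_cases i with rfl | rfl | rfl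
  · rw [show (0 : ZMod 3) + 1 = 1 by decide, Wr_one, Wr_zero]
  · rw [show (1 : ZMod 3) + 1 = 2 by decide, Wr_two, Wr_one]
  · rw [show (2 : ZMod 3) + 1 = 0 by decide, Wr_zero, Wr_two]

theorem Wr_rot2 (w : Fin n → Fin n → Fin n → ℝ) (i : ZMod 3) (x y z : Fin n) :
    Wr w (i + 2) z x y = Wr w i x y z := by
  have h := Wr_rot w (i + 2) z x y
  rw [e21] at h
  rw [← h]

theorem Wr_nonneg {w : Fin n → Fin n → Fin n → ℝ} (h : ∀ a b c, 0 ≤ w a b c) (i : ZMod 3)
    (x y z : Fin n) : 0 ≤ Wr w i x y z := by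
  rcases zmod3_cases i with rfl | rfl | rfl
  · rw [Wr_zero]; exact h _ _ _
  · rw [Wr_one]; exact h _ _ _
  · rw [Wr_two]; exact h _ _ _

/-- a rotation invariant family is determined by its member `0` -/
theorem Wr_of_rot (F : ZMod 3 → Fin n → Fin n → Fin n → ℝ)
    (hF : ∀ i x y z, F (i + 1) y z x = F i x y z) (i : ZMod 3) (x y z : Fin n) :
    Wr (F 0) i x y z = F i x y z := by
  rcases zmod3_cases i with rfl | rfl | rfl
  · rw [Wr_zero]
  · rw [Wr_one, ← hF 0 z x y]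
    rfl
  · rw [Wr_two, ← hF 2 x y z]
    rfl

theorem Wr_comb (w w' : Fin n → Fin n → Fin n → ℝ) (ε : ℝ) (i : ZMod 3) (x y z : Fin n) :
    Wr (fun a b c => (1 - ε) * w a b c + ε * w' a b c) i x y z
      = (1 - ε) * Wr w i x y z + ε * Wr w' i x y z := by
  rcases zmod3_cases i with rfl | rfl | rfl
  · simp only [Wr_zero]
  · simp only [Wr_one]
  · simp only [Wr_two]

/-- the load of the pairs -/
def Lo (w : Fin n → Fin n → Fin n → ℝ) (i : ZMod 3) (x y : Fin n) : ℝ := ∑ z, Wr w i x y z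

/-- the load of the vertices -/
def Lv (w : Fin n → Fin n → Fin n → ℝ) (i : ZMod 3) (x : Fin n) : ℝ := ∑ y, ∑ z, Wr w i x y z

theorem sum_Lo_out (w : Fin n → Fin n → Fin n → ℝ) (i : ZMod 3) (x : Fin n) :
    ∑ y, Lo w i x y = Lv w i x := rfl

theorem sum_Lo_in (w : Fin n → Fin n → Fin n → ℝ) (i : ZMod 3) (x : Fin n) :
    ∑ z, Lo w (i + 2) z x = Lv w i x := by
  unfold Lo Lv
  rw [Finset.sum_comm]
  refine Finset.sum_congr rfl fun y _ => Finset.sum_congr rfl fun z _ => ?_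
  rw [Wr_rot2]

theorem Lo_comb (w w' : Fin n → Fin n → Fin n → ℝ) (ε : ℝ) (i : ZMod 3) (x y : Fin n) :
    Lo (fun a b c => (1 - ε) * w a b c + ε * w' a b c) i x y
      = (1 - ε) * Lo w i x y + ε * Lo w' i x y := by
  unfold Lo
  rw [Finset.mul_sum, Finset.mul_sum, ← Finset.sum_add_distrib]
  exact Finset.sum_congr rfl fun z _ => Wr_comb w w' ε i x y z

theorem Lv_comb (w w' : Fin n → Fin n → Fin n → ℝ) (ε : ℝ) (i : ZMod 3) (x : Fin n) :
    Lv (fun a b c => (1 - ε) * w a b c + ε * w' a b c) i x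
      = (1 - ε) * Lv w i x + ε * Lv w' i x := by
  rw [← sum_Lo_out, ← sum_Lo_out, ← sum_Lo_out, Finset.mul_sum, Finset.mul_sum,
    ← Finset.sum_add_distrib]
  exact Finset.sum_congr rfl fun y _ => Lo_comb w w' ε i x y

section Test

variable (g π : M3 ℝ n) (P : ZMod 3 → Fin n → ℝ)

/-- the weight of the triangle `x y z` coming from the uncovered part of the edge `x y` -/
noncomputable def X (i : ZMod 3) (x y z : Fin n) : ℝ :=
  π i x y * (g (i + 1) y z * g (i + 2) z x) * phi (P i x) (P (i + 1) y) (P (i + 2) z)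

/-- the test packing -/
noncomputable def F (i : ZMod 3) (x y z : Fin n) : ℝ :=
  X g π P i x y z + X g π P (i + 1) y z x + X g π P (i + 2) z x y

theorem F_rot (i : ZMod 3) (x y z : Fin n) : F g π P (i + 1) y z x = F g π P i x y z := by
  unfold F
  rw [e11, e12]
  ring

variable {g π P}

theorem X_nonneg (hg : ∀ i a b, 0 ≤ g i a b) (hπ : ∀ i a b, 0 ≤ π i a b) (hP : ∀ i a, 0 ≤ P i a)
    (i : ZMod 3) (x y z : Fin n) : 0 ≤ X g π P i x y z := by
  unfold X
  exact mul_nonneg (mul_nonneg (hπ _ _ _) (mul_nonneg (hg _ _ _) (hg _ _ _)))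
    (phi_nonneg (hP _ _) (hP _ _) (hP _ _))

theorem F_nonneg (hg : ∀ i a b, 0 ≤ g i a b) (hπ : ∀ i a b, 0 ≤ π i a b) (hP : ∀ i a, 0 ≤ P i a)
    (i : ZMod 3) (x y z : Fin n) : 0 ≤ F g π P i x y z := by
  unfold F
  exact add_nonneg (add_nonneg (X_nonneg hg hπ hP _ _ _ _) (X_nonneg hg hπ hP _ _ _ _))
    (X_nonneg hg hπ hP _ _ _ _)

/-- the load of a covered pair -/
theorem load_le (hg : ∀ i a b, 0 ≤ g i a b) (hg1 : ∀ i a b, g i a b ≤ 1)
    (hπ : ∀ i a b, 0 ≤ π i a b) (hP : ∀ i a, 0 ≤ P i a)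
    (hout : ∀ i a, ∑ b, π i a b = P i a) (hin : ∀ i a, ∑ c, π (i + 2) c a = P i a)
    (i : ZMod 3) (x y : Fin n) (h0 : π i x y = 0) : ∑ z, F g π P i x y z ≤ g i x y := by
  obtain ⟨t, ht0, ht1, h1, h2⟩ := share (P i x) (P (i + 1) y) (hP _ _) (hP _ _)
  have e1 : ∑ z, π (i + 2) z x * phi (P i x) (P (i + 2) z) (P (i + 1) y) ≤ t :=
    share_sum (fun z => π (i + 2) z x) (fun z => phi (P i x) (P (i + 2) z) (P (i + 1) y)) ht0
      (fun z => hπ _ _ _) (hin i x) (fun z => h1 _ (hP _ _))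
  have e2 : ∑ z, π (i + 1) y z * phi (P (i + 1) y) (P (i + 2) z) (P i x) ≤ 1 - t :=
    share_sum (fun z => π (i + 1) y z) (fun z => phi (P (i + 1) y) (P (i + 2) z) (P i x))
      (by linarith) (fun z => hπ _ _ _) (hout (i + 1) y) (fun z => h2 _ (hP _ _))
  calc ∑ z, F g π P i x y z
      ≤ ∑ z, g i x y * (π (i + 2) z x * phi (P i x) (P (i + 2) z) (P (i + 1) y)
          + π (i + 1) y z * phi (P (i + 1) y) (P (i + 2) z) (P i x)) := by
        refine Finset.sum_le_sum fun z _ => ?_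
        unfold F X
        rw [e11, e12, e21, e22, h0, phi_symm (P (i + 2) z) (P i x)]
        have a1 := phi_nonneg (hP i x) (hP (i + 2) z) (hP (i + 1) y)
        have a2 := phi_nonneg (hP (i + 1) y) (hP (i + 2) z) (hP i x)
        have b1 : 0 ≤ π (i + 2) z x * g i x y * phi (P i x) (P (i + 2) z) (P (i + 1) y) :=
          mul_nonneg (mul_nonneg (hπ _ _ _) (hg _ _ _)) a1
        have b2 : 0 ≤ π (i + 1) y z * g i x y * phi (P (i + 1) y) (P (i + 2) z) (P i x) :=
          mul_nonneg (mul_nonneg (hπ _ _ _) (hg _ _ _)) a2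
        have c1 := mul_le_of_le_one_right b1 (hg1 (i + 1) y z)
        have c2 := mul_le_of_le_one_right b2 (hg1 (i + 2) z x)
        nlinarith
    _ = g i x y * (∑ z, π (i + 2) z x * phi (P i x) (P (i + 2) z) (P (i + 1) y)
          + ∑ z, π (i + 1) y z * phi (P (i + 1) y) (P (i + 2) z) (P i x)) := by
        rw [← Finset.sum_add_distrib, Finset.mul_sum]
    _ ≤ g i x y * 1 := mul_le_mul_of_nonneg_left (by linarith) (hg _ _ _)
    _ = g i x y := mul_one _

/-- reindexing -/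
theorem sum_shift1 (f : ZMod 3 → ℝ) : ∑ i, f (i + 1) = ∑ i, f i :=
  Fintype.sum_equiv (Equiv.addRight (1 : ZMod 3)) _ _ fun _ => rfl

theorem sum_shift2 (f : ZMod 3 → ℝ) : ∑ i, f (i + 2) = ∑ i, f i :=
  Fintype.sum_equiv (Equiv.addRight (2 : ZMod 3)) _ _ fun _ => rfl

theorem rot1 (f : Fin n → Fin n → Fin n → ℝ) :
    ∑ x, ∑ y, ∑ z, f y z x = ∑ x, ∑ y, ∑ z, f x y z := by
  rw [Finset.sum_comm]
  refine Finset.sum_congr rfl fun y _ => ?_
  rw [Finset.sum_comm]

theorem rot2 (f : Fin n → Fin n → Fin n → ℝ) :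
    ∑ x, ∑ y, ∑ z, f z x y = ∑ x, ∑ y, ∑ z, f x y z := by
  rw [← rot1 f, ← rot1 fun x y z => f y z x]

/-- the value of the test packing -/
theorem value (hP : ∀ i a, 0 ≤ P i a) :
    ∑ i, ∑ x, P i x ^ 3 * ∑ y, ∑ z, F g π P i x y z
      = ∑ i, ∑ x, ∑ y, π i x y * (3 / 4 * (P i x ^ 2 + P (i + 1) y ^ 2)) *
          ∑ z, g (i + 1) y z * g (i + 2) z x := by
  have h1 : ∑ i, ∑ x, P i x ^ 3 * ∑ y, ∑ z, F g π P i x y z
      = ∑ i, ∑ x, ∑ y, ∑ z, P i x ^ 3 * X g π P i x y z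
        + ∑ i, ∑ x, ∑ y, ∑ z, P i x ^ 3 * X g π P (i + 1) y z x
        + ∑ i, ∑ x, ∑ y, ∑ z, P i x ^ 3 * X g π P (i + 2) z x y := by
    rw [← Finset.sum_add_distrib, ← Finset.sum_add_distrib]
    refine Finset.sum_congr rfl fun i _ => ?_
    rw [← Finset.sum_add_distrib, ← Finset.sum_add_distrib]
    refine Finset.sum_congr rfl fun x _ => ?_
    rw [Finset.mul_sum, ← Finset.sum_add_distrib, ← Finset.sum_add_distrib]
    refine Finset.sum_congr rfl fun y _ => ?_
    rw [Finset.mul_sum, ← Finset.sum_add_distrib, ← Finset.sum_add_distrib]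
    refine Finset.sum_congr rfl fun z _ => ?_
    unfold F
    ring
  have h2 : ∑ i, ∑ x, ∑ y, ∑ z, P i x ^ 3 * X g π P (i + 1) y z x
      = ∑ i, ∑ x, ∑ y, ∑ z, P (i + 2) z ^ 3 * X g π P i x y z := by
    rw [← sum_shift1 fun i => ∑ x, ∑ y, ∑ z, P (i + 2) z ^ 3 * X g π P i x y z]
    refine Finset.sum_congr rfl fun i _ => ?_
    rw [e12]
    exact rot1 fun x y z => P i z ^ 3 * X g π P (i + 1) x y z
  have h3 : ∑ i, ∑ x, ∑ y, ∑ z, P i x ^ 3 * X g π P (i + 2) z x y
      = ∑ i, ∑ x, ∑ y, ∑ z, P (i + 1) y ^ 3 * X g π P i x y z := by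
    rw [← sum_shift2 fun i => ∑ x, ∑ y, ∑ z, P (i + 1) y ^ 3 * X g π P i x y z]
    refine Finset.sum_congr rfl fun i _ => ?_
    rw [e21]
    exact rot2 fun x y z => P i y ^ 3 * X g π P (i + 2) x y z
  rw [h1, h2, h3, ← Finset.sum_add_distrib, ← Finset.sum_add_distrib]
  refine Finset.sum_congr rfl fun i _ => ?_
  rw [← Finset.sum_add_distrib, ← Finset.sum_add_distrib]
  refine Finset.sum_congr rfl fun x _ => ?_
  rw [← Finset.sum_add_distrib, ← Finset.sum_add_distrib]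
  refine Finset.sum_congr rfl fun y _ => ?_
  rw [← Finset.sum_add_distrib, ← Finset.sum_add_distrib, Finset.mul_sum]
  refine Finset.sum_congr rfl fun z _ => ?_
  have h4 := phi_mul (hP i x) (hP (i + 1) y) (hP (i + 2) z)
  unfold X
  rw [← h4]
  ring

end Test

/-- number of common neighbours -/
theorem codeg {g : M3 ℝ n} {d : ZMod 3 → Fin n → ℝ} {k : ℝ} (S : WSetup g d k) (i : ZMod 3)
    (a b : Fin n) :
    (n : ℝ) - d i a - d (i + 1) b ≤ ∑ c, g (i + 1) b c * g (i + 2) c a := by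
  have h1 : ∑ c, g (i + 1) b c * g (i + 2) c a
      ≥ ∑ c, (1 - (1 - g (i + 1) b c) - (1 - g (i + 2) c a)) := by
    refine Finset.sum_le_sum fun c _ => ?_
    nlinarith [S.g0 (i + 1) b c, S.g1 (i + 1) b c, S.g0 (i + 2) c a, S.g1 (i + 2) c a,
      mul_nonneg (sub_nonneg.2 (S.g1 (i + 1) b c)) (sub_nonneg.2 (S.g1 (i + 2) c a))]
  have h2 : ∑ c, (1 - (1 - g (i + 1) b c) - (1 - g (i + 2) c a)) = n - d (i + 1) b - d i a := by
    rw [Finset.sum_sub_distrib, Finset.sum_sub_distrib, S.row, S.col, sum_const, card_univ,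
      Fintype.card_fin, nsmul_eq_mul, mul_one]
  linarith

/-- the key inequality -/
theorem key {g π : M3 ℝ n} {d P : ZMod 3 → Fin n → ℝ} {k : ℝ} (S : WSetup g d k)
    (hn : 4 * k ≤ n) (hπ : ∀ i a b, 0 ≤ π i a b) (hP : ∀ i a, 0 ≤ P i a)
    (hout : ∀ i a, ∑ b, π i a b = P i a) (hin : ∀ i a, ∑ c, π (i + 2) c a = P i a) :
    ∑ i, ∑ x, P i x ^ 3 * (n - d i x) ≤ ∑ i, ∑ x, P i x ^ 3 * ∑ y, ∑ z, F g π P i x y z := by
  rw [value hP]
  have h1 : ∑ i, ∑ x, P i x ^ 3 * (n - d i x)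
      = ∑ i, ∑ x, ∑ y, π i x y * (P i x ^ 2 * (n - d i x)) := by
    refine Finset.sum_congr rfl fun i _ => Finset.sum_congr rfl fun x _ => ?_
    rw [← Finset.sum_mul, hout]
    ring
  have h2 : ∑ i, ∑ x, P i x ^ 3 * (n - d i x)
      = ∑ i, ∑ x, ∑ y, π i x y * (P (i + 1) y ^ 2 * (n - d (i + 1) y)) := by
    rw [← sum_shift2 fun i => ∑ x, ∑ y, π i x y * (P (i + 1) y ^ 2 * (n - d (i + 1) y))]
    refine Finset.sum_congr rfl fun i _ => ?_
    rw [Finset.sum_comm, e21]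
    refine Finset.sum_congr rfl fun x _ => ?_
    rw [← Finset.sum_mul, hin]
    ring
  have h3 : 2 * ∑ i, ∑ x, P i x ^ 3 * (n - d i x)
      = ∑ i, ∑ x, ∑ y, π i x y * (P i x ^ 2 * (n - d i x) + P (i + 1) y ^ 2 * (n - d (i + 1) y)) := by
    have : 2 * ∑ i, ∑ x, P i x ^ 3 * (n - d i x)
        = ∑ i, ∑ x, P i x ^ 3 * (n - d i x) + ∑ i, ∑ x, P i x ^ 3 * (n - d i x) := by ring
    rw [this]
    nth_rewrite 1 [h1]
    rw [h2, ← Finset.sum_add_distrib]
    refine Finset.sum_congr rfl fun i _ => ?_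
    rw [← Finset.sum_add_distrib]
    refine Finset.sum_congr rfl fun x _ => ?_
    rw [← Finset.sum_add_distrib]
    refine Finset.sum_congr rfl fun y _ => ?_
    ring
  have h4 : 2 * ∑ i, ∑ x, P i x ^ 3 * (n - d i x)
      ≤ 2 * ∑ i, ∑ x, ∑ y, π i x y * (3 / 4 * (P i x ^ 2 + P (i + 1) y ^ 2)) *
          ∑ z, g (i + 1) y z * g (i + 2) z x := by
    rw [h3, Finset.mul_sum]
    refine Finset.sum_le_sum fun i _ => ?_
    rw [Finset.mul_sum]
    refine Finset.sum_le_sum fun x _ => ?_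
    rw [Finset.mul_sum]
    refine Finset.sum_le_sum fun y _ => ?_
    have c := codeg S i x y
    have k1 := S.dk i x
    have k2 := S.dk (i + 1) y
    have q1 : 0 ≤ P i x ^ 2 := sq_nonneg _
    have q2 : 0 ≤ P (i + 1) y ^ 2 := sq_nonneg _
    have c2 : 3 / 2 * (P i x ^ 2 + P (i + 1) y ^ 2) * (n - d i x - d (i + 1) y)
        ≤ 3 / 2 * (P i x ^ 2 + P (i + 1) y ^ 2) * ∑ z, g (i + 1) y z * g (i + 2) z x :=
      mul_le_mul_of_nonneg_left c (by positivity)
    have c3 : P i x ^ 2 * (n - d i x) + P (i + 1) y ^ 2 * (n - d (i + 1) y)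
        ≤ 3 / 2 * (P i x ^ 2 + P (i + 1) y ^ 2) * (n - d i x - d (i + 1) y) := by
      have m1 : 0 ≤ P i x ^ 2 * (n - d i x - 3 * d (i + 1) y) := mul_nonneg q1 (by linarith)
      have m2 : 0 ≤ P (i + 1) y ^ 2 * (n - d (i + 1) y - 3 * d i x) := mul_nonneg q2 (by linarith)
      linarith
    have c4 := mul_le_mul_of_nonneg_left (c3.trans c2) (hπ i x y)
    calc _ ≤ _ := c4
      _ = _ := by ring
  linarith

/-- a feasible packing -/
def Feas (g : M3 ℝ n) (w : Fin n → Fin n → Fin n → ℝ) : Prop :=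
  (∀ a b c, 0 ≤ w a b c) ∧ ∀ i x y, Lo w i x y ≤ g i x y

/-- the functional -/
def Psi (d : ZMod 3 → Fin n → ℝ) (w : Fin n → Fin n → Fin n → ℝ) : ℝ :=
  ∑ i, ∑ x, ((n : ℝ) - d i x - Lv w i x) ^ 4

theorem Lo_cont (i : ZMod 3) (x y : Fin n) :
    Continuous fun w : Fin n → Fin n → Fin n → ℝ => Lo w i x y := by
  unfold Lo
  refine continuous_finset_sum _ fun z _ => ?_
  rcases zmod3_cases i with rfl | rfl | rfl
  · simp only [Wr_zero]; fun_prop
  · simp only [Wr_one]; fun_prop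
  · simp only [Wr_two]; fun_prop

theorem Lv_cont (i : ZMod 3) (x : Fin n) :
    Continuous fun w : Fin n → Fin n → Fin n → ℝ => Lv w i x := by
  simp only [← sum_Lo_out]
  exact continuous_finset_sum _ fun y _ => Lo_cont i x y

theorem Psi_cont (d : ZMod 3 → Fin n → ℝ) :
    Continuous fun w : Fin n → Fin n → Fin n → ℝ => Psi d w := by
  unfold Psi
  refine continuous_finset_sum _ fun i _ => continuous_finset_sum _ fun x _ => ?_
  exact (continuous_const.sub (Lv_cont i x)).pow 4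

theorem exists_min {g : M3 ℝ n} {d : ZMod 3 → Fin n → ℝ} {k : ℝ} (S : WSetup g d k) :
    ∃ w, Feas g w ∧ ∀ w', Feas g w' → Psi d w ≤ Psi d w' := by
  have hcl : IsClosed {w : Fin n → Fin n → Fin n → ℝ | Feas g w} := by
    have : {w : Fin n → Fin n → Fin n → ℝ | Feas g w}
        = (⋂ a, ⋂ b, ⋂ c, {w | 0 ≤ w a b c}) ∩ ⋂ i, ⋂ x, ⋂ y, {w | Lo w i x y ≤ g i x y} := by
      ext w
      simp [Feas]
    rw [this]
    refine IsClosed.inter ?_ ?_
    · refine isClosed_iInter fun a => isClosed_iInter fun b => isClosed_iInter fun c => ?_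
      exact isClosed_le continuous_const (by fun_prop)
    · refine isClosed_iInter fun i => isClosed_iInter fun x => isClosed_iInter fun y => ?_
      exact isClosed_le (Lo_cont i x y) continuous_const
  have hsub : {w : Fin n → Fin n → Fin n → ℝ | Feas g w} ⊆ Set.Icc 0 1 := by
    intro w hw
    obtain ⟨h0, h1⟩ := hw
    refine ⟨fun a b c => h0 a b c, fun a b c => ?_⟩
    have h2 := h1 0 a b
    have h3 : w a b c ≤ Lo w 0 a b := by
      unfold Lo
      have := Finset.single_le_sum (f := fun z => Wr w 0 a b z)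
        (fun z _ => Wr_nonneg h0 0 a b z) (Finset.mem_univ c)
      rw [Wr_zero] at this
      exact this
    exact h3.trans (h2.trans (S.g1 _ _ _))
  have hcomp : IsCompact {w : Fin n → Fin n → Fin n → ℝ | Feas g w} :=
    isCompact_Icc.of_isClosed_subset hcl hsub
  have hne : {w : Fin n → Fin n → Fin n → ℝ | Feas g w}.Nonempty := by
    refine ⟨fun _ _ _ => 0, fun _ _ _ => le_rfl, fun i x y => ?_⟩
    have : Lo (fun _ _ _ : Fin n => (0 : ℝ)) i x y = 0 := by
      unfold Lo Wr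
      simp
    rw [this]
    exact S.g0 _ _ _
  obtain ⟨w, hw, hmin⟩ := hcomp.exists_isMinOn hne (Psi_cont d).continuousOn
  exact ⟨w, hw, fun w' hw' => hmin hw'⟩

/-- **Theorem.** A weighted locally balanced tripartite graph with deficiencies at most `k`,
`4 k ≤ n`, has a fractional triangle decomposition. -/
theorem frac_decomp {g : M3 ℝ n} {d : ZMod 3 → Fin n → ℝ} {k : ℝ} (S : WSetup g d k)
    (hn : 4 * k ≤ n) : ∃ w, IsDecomp g w := by
  obtain ⟨w, ⟨hw0, hw1⟩, hmin⟩ := exists_min S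
  obtain ⟨π, hπd⟩ : ∃ π : M3 ℝ n, π = fun i x y => g i x y - Lo w i x y := ⟨_, rfl⟩
  obtain ⟨P, hPd⟩ : ∃ P : ZMod 3 → Fin n → ℝ, P = fun i x => (n : ℝ) - d i x - Lv w i x :=
    ⟨_, rfl⟩
  have hπ : ∀ i a b, 0 ≤ π i a b := by
    intro i a b
    rw [hπd]
    exact sub_nonneg.2 (hw1 i a b)
  have grow : ∀ i a, ∑ b, g i a b = n - d i a := by
    intro i a
    have := S.row i a
    rw [Finset.sum_sub_distrib, sum_const, card_univ, Fintype.card_fin, nsmul_eq_mul,
      mul_one] at this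
    linarith
  have gcol : ∀ i a, ∑ c, g (i + 2) c a = n - d i a := by
    intro i a
    have := S.col i a
    rw [Finset.sum_sub_distrib, sum_const, card_univ, Fintype.card_fin, nsmul_eq_mul,
      mul_one] at this
    linarith
  have hout : ∀ i a, ∑ b, π i a b = P i a := by
    intro i a
    rw [hπd, hPd]
    simp only
    rw [Finset.sum_sub_distrib, grow, sum_Lo_out]
  have hin : ∀ i a, ∑ c, π (i + 2) c a = P i a := by
    intro i a
    rw [hπd, hPd]
    simp only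
    rw [Finset.sum_sub_distrib, gcol, sum_Lo_in]
  have hP : ∀ i a, 0 ≤ P i a := by
    intro i a
    rw [← hout]
    exact Finset.sum_nonneg fun b _ => hπ _ _ _
  -- the test packing
  obtain ⟨v, hv⟩ : ∃ v : Fin n → Fin n → Fin n → ℝ, v = F g π P 0 := ⟨_, rfl⟩
  have hvF : ∀ i x y z, Wr v i x y z = F g π P i x y z := by
    intro i x y z
    rw [hv]
    exact Wr_of_rot (F g π P) (F_rot g π P) i x y z
  have hv0 : ∀ a b c, 0 ≤ v a b c := by
    intro a b c
    rw [hv]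
    exact F_nonneg S.g0 hπ hP _ _ _ _
  have hLv : ∀ i x, Lv v i x = ∑ y, ∑ z, F g π P i x y z := by
    intro i x
    unfold Lv
    exact Finset.sum_congr rfl fun y _ => Finset.sum_congr rfl fun z _ => hvF _ _ _ _
  have hLo : ∀ i x y, π i x y = 0 → Lo v i x y ≤ g i x y := by
    intro i x y h
    unfold Lo
    rw [Finset.sum_congr rfl fun z _ => hvF i x y z]
    exact load_le S.g0 S.g1 hπ hP hout hin i x y h
  -- the first variation is nonnegative
  obtain ⟨Q, hQ⟩ : ∃ Q : ZMod 3 → Fin n → ℝ, Q = fun i x => (n : ℝ) - d i x - P i x - Lv v i x :=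
    ⟨_, rfl⟩
  have hkey := key S hn hπ hP hout hin
  have hvar : ∑ i, ∑ x, P i x ^ 3 * Q i x ≤ - ∑ i, ∑ x, P i x ^ 4 := by
    have h1 : ∑ i, ∑ x, P i x ^ 3 * Q i x
        = ∑ i, ∑ x, P i x ^ 3 * (n - d i x) - ∑ i, ∑ x, P i x ^ 4
          - ∑ i, ∑ x, P i x ^ 3 * ∑ y, ∑ z, F g π P i x y z := by
      rw [← Finset.sum_sub_distrib, ← Finset.sum_sub_distrib]
      refine Finset.sum_congr rfl fun i _ => ?_
      rw [← Finset.sum_sub_distrib, ← Finset.sum_sub_distrib]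
      refine Finset.sum_congr rfl fun x _ => ?_
      rw [hQ]
      simp only
      rw [hLv]
      ring
    linarith
  have hfeas : ∀ᶠ ε in nhdsWithin (0 : ℝ) (Set.Ioi 0),
      Feas g (fun a b c => (1 - ε) * w a b c + ε * v a b c) := by
    have hA : ∀ i x y, ∀ᶠ ε in nhdsWithin (0 : ℝ) (Set.Ioi 0),
        (1 - ε) * Lo w i x y + ε * Lo v i x y ≤ g i x y := by
      intro i x y
      rcases (hπ i x y).eq_or_lt with h | h
      · have h1 := hLo i x y h.symm
        have h2 : Lo w i x y = g i x y := by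
          have : π i x y = g i x y - Lo w i x y := by rw [hπd]
          linarith
        have h3 : ∀ᶠ ε in nhdsWithin (0 : ℝ) (Set.Ioi 0), 0 < ε := eventually_mem_nhdsWithin
        filter_upwards [h3] with ε hε
        rw [h2]
        nlinarith
      · have h2 : Lo w i x y < g i x y := by
          have : π i x y = g i x y - Lo w i x y := by rw [hπd]
          linarith
        have h3 : Filter.Tendsto (fun ε : ℝ => (1 - ε) * Lo w i x y + ε * Lo v i x y)
            (nhdsWithin (0 : ℝ) (Set.Ioi 0)) (nhds ((1 - 0) * Lo w i x y + 0 * Lo v i x y)) := by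
          have hc : Continuous fun ε : ℝ => (1 - ε) * Lo w i x y + ε * Lo v i x y := by fun_prop
          exact (hc.tendsto 0).mono_left nhdsWithin_le_nhds
        have h4 : (1 - (0 : ℝ)) * Lo w i x y + 0 * Lo v i x y < g i x y := by
          rw [sub_zero, one_mul, zero_mul, add_zero]
          exact h2
        exact (h3.eventually (gt_mem_nhds h4)).mono fun ε hε => hε.le
    have hB : ∀ᶠ ε in nhdsWithin (0 : ℝ) (Set.Ioi 0), 0 < ε ∧ ε < 1 := by
      have h3 : ∀ᶠ ε in nhdsWithin (0 : ℝ) (Set.Ioi 0), 0 < ε := eventually_mem_nhdsWithin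
      have h4 : ∀ᶠ ε in nhdsWithin (0 : ℝ) (Set.Ioi 0), ε < 1 :=
        nhdsWithin_le_nhds (gt_mem_nhds one_pos)
      exact h3.and h4
    have hA' : ∀ᶠ ε in nhdsWithin (0 : ℝ) (Set.Ioi 0), ∀ i x y,
        (1 - ε) * Lo w i x y + ε * Lo v i x y ≤ g i x y := by
      refine Filter.eventually_all.2 fun i => Filter.eventually_all.2 fun x =>
        Filter.eventually_all.2 fun y => hA i x y
    filter_upwards [hA', hB] with ε h1 h2
    refine ⟨fun a b c => ?_, fun i x y => ?_⟩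
    · exact add_nonneg (mul_nonneg (by linarith) (hw0 _ _ _)) (mul_nonneg h2.1.le (hv0 _ _ _))
    · rw [Lo_comb]
      exact h1 i x y
  have hPsi : ∀ ε : ℝ, Psi d (fun a b c => (1 - ε) * w a b c + ε * v a b c)
      = ∑ i, ∑ x, (P i x + ε * Q i x) ^ 4 := by
    intro ε
    unfold Psi
    refine Finset.sum_congr rfl fun i _ => Finset.sum_congr rfl fun x _ => ?_
    rw [Lv_comb, hQ, hPd]
    simp only
    congr 1
    ring
  have hPsi0 : Psi d w = ∑ i, ∑ x, P i x ^ 4 := by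
    unfold Psi
    rw [hPd]
  -- the sum vanishes
  have hzero : ∑ i, ∑ x, P i x ^ 4 = 0 := by
    by_contra hne
    have hpos : 0 < ∑ i, ∑ x, P i x ^ 4 := by
      refine lt_of_le_of_ne ?_ (Ne.symm hne)
      exact Finset.sum_nonneg fun i _ => Finset.sum_nonneg fun x _ => pow_nonneg (hP i x) 4
    obtain ⟨C, hC⟩ : ∃ C : ℝ, C = ∑ i, ∑ x, (6 * P i x ^ 2 * Q i x ^ 2
        + 4 * |P i x * Q i x ^ 3| + Q i x ^ 4) := ⟨_, rfl⟩
    obtain ⟨T0, hT0⟩ : ∃ T0 : ℝ, T0 = ∑ i, ∑ x, P i x ^ 4 := ⟨_, rfl⟩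
    have hsmall : ∀ᶠ ε in nhdsWithin (0 : ℝ) (Set.Ioi 0), 0 < ε ∧ ε < 1 ∧ ε * C < 4 * T0 := by
      have h3 : ∀ᶠ ε in nhdsWithin (0 : ℝ) (Set.Ioi 0), 0 < ε := eventually_mem_nhdsWithin
      have h4 : ∀ᶠ ε in nhdsWithin (0 : ℝ) (Set.Ioi 0), ε < 1 :=
        nhdsWithin_le_nhds (gt_mem_nhds one_pos)
      have h5 : ∀ᶠ ε in nhdsWithin (0 : ℝ) (Set.Ioi 0), ε * C < 4 * T0 := by
        have hc : Continuous fun ε : ℝ => ε * C := by fun_prop
        have h6 := (hc.tendsto 0).mono_left (nhdsWithin_le_nhds (s := Set.Ioi (0 : ℝ)))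
        refine h6.eventually (gt_mem_nhds ?_)
        rw [zero_mul, hT0]
        linarith
      exact h3.and (h4.and h5)
    obtain ⟨ε, hε1, hε0, hε1', hεC⟩ := (hfeas.and hsmall).exists
    have h1 := hmin _ hε1
    rw [hPsi, hPsi0] at h1
    have h2 : ∑ i, ∑ x, (P i x + ε * Q i x) ^ 4
        ≤ ∑ i, ∑ x, P i x ^ 4 + 4 * ε * (∑ i, ∑ x, P i x ^ 3 * Q i x) + ε ^ 2 * C := by
      rw [hC, Finset.mul_sum, Finset.mul_sum, ← Finset.sum_add_distrib, ← Finset.sum_add_distrib]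
      refine Finset.sum_le_sum fun i _ => ?_
      rw [Finset.mul_sum, Finset.mul_sum, ← Finset.sum_add_distrib, ← Finset.sum_add_distrib]
      refine Finset.sum_le_sum fun x _ => ?_
      have e0 : 0 ≤ ε ^ 2 := sq_nonneg _
      have e1 : ε * (P i x * Q i x ^ 3) ≤ |P i x * Q i x ^ 3| := by
        calc ε * (P i x * Q i x ^ 3) ≤ ε * |P i x * Q i x ^ 3| :=
              mul_le_mul_of_nonneg_left (le_abs_self _) hε0.le
          _ ≤ 1 * |P i x * Q i x ^ 3| := mul_le_mul_of_nonneg_right hε1'.le (abs_nonneg _)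
          _ = _ := one_mul _
      have e2 : ε ^ 2 * Q i x ^ 4 ≤ Q i x ^ 4 := by
        have : ε ^ 2 ≤ 1 := by nlinarith
        have h0 : 0 ≤ Q i x ^ 4 := by positivity
        nlinarith
      have e3 : ε ^ 2 * (4 * (ε * (P i x * Q i x ^ 3)) + ε ^ 2 * Q i x ^ 4)
          ≤ ε ^ 2 * (4 * |P i x * Q i x ^ 3| + Q i x ^ 4) :=
        mul_le_mul_of_nonneg_left (by linarith) e0
      have e4 : (P i x + ε * Q i x) ^ 4 = P i x ^ 4 + 4 * ε * (P i x ^ 3 * Q i x)
          + ε ^ 2 * (6 * P i x ^ 2 * Q i x ^ 2)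
          + ε ^ 2 * (4 * (ε * (P i x * Q i x ^ 3)) + ε ^ 2 * Q i x ^ 4) := by ring
      rw [e4]
      linarith
    rw [← hT0] at h1 h2 hvar
    have h3 : 4 * ε * (∑ i, ∑ x, P i x ^ 3 * Q i x) ≤ 4 * ε * (-T0) :=
      mul_le_mul_of_nonneg_left hvar (by linarith)
    have h4 : 0 < ε * (4 * T0 - ε * C) := mul_pos hε0 (by linarith)
    nlinarith
  have hPz : ∀ i x, P i x = 0 := by
    intro i x
    have h1 := (Finset.sum_eq_zero_iff_of_nonneg fun i _ =>
      Finset.sum_nonneg fun x _ => pow_nonneg (hP i x) 4).1 hzero i (Finset.mem_univ _)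
    have h2 := (Finset.sum_eq_zero_iff_of_nonneg fun x _ => pow_nonneg (hP i x) 4).1 h1 x
      (Finset.mem_univ _)
    exact pow_eq_zero_iff (by norm_num) |>.1 h2
  have hLoz : ∀ i x y, Lo w i x y = g i x y := by
    intro i x y
    have h1 := hout i x
    rw [hPz] at h1
    have h2 := (Finset.sum_eq_zero_iff_of_nonneg fun b _ => hπ i x b).1 h1 y (Finset.mem_univ _)
    have : π i x y = g i x y - Lo w i x y := by rw [hπd]
    linarith
  refine ⟨w, hw0, fun a b => ?_, fun b c => ?_, fun c a => ?_⟩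
  · rw [← hLoz 0 a b]
    unfold Lo
    exact Finset.sum_congr rfl fun c _ => (Wr_zero w a b c).symm
  · rw [← hLoz 1 b c]
    unfold Lo
    exact Finset.sum_congr rfl fun a _ => (Wr_one w b c a).symm
  · rw [← hLoz 2 c a]
    unfold Lo
    exact Finset.sum_congr rfl fun b _ => (Wr_two w c a b).symm

end H64Tri
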