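import Pool.Agent.NW3.Sample3
import Pool.Agent.H64.Tri.Main

/-!
# The fractional input of project NW3 with the sharp constant `1 / 4`
-/

namespace H64Tri

/-- the weighted fractional theorem with constant `1 / 4` -/
theorem ft_quarter : NW3.FT (1 / 4) := fun _ _ _ S => frac_decomp S (by linarith)

end H64Tri
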